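import Pool.Agent.Helper65.RT3.Top

/-!
# RT3: free products have the top property

`Heads L P`: first syllables of the elements of an internal free product `L` of the subgroups `P q`.
The top point of the coset `x P_q` is `x * head_q(x⁻¹)` (cut the last syllable of `x` if it lies in `P_q`).
-/

set_option autoImplicit false

namespace Pool.Agent.Helper65.RT3

open Monoid

variable {G : Type*} [Group G] {ι : Type*}

/-- first syllables in an internal free product `L` of the subgroups `P q` -/
structure Heads (L : Subgroup G) (P : ι → Subgroup G) where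
  le : ∀ q, P q ≤ L
  sup : L ≤ ⨆ q, P q
  head : ι → G → G
  mem : ∀ q, ∀ u ∈ L, head q u ∈ P q
  mul : ∀ q, ∀ h ∈ P q, ∀ u ∈ L, head q (h * u) = h * head q u
  one : ∀ q q', q ≠ q' → ∀ u ∈ L, head q u = 1 ∨ head q' u = 1

/-- `Red P o c W`: `c` is the product of the reduced list of syllables `W` whose first index is `o` -/
inductive Red (P : ι → Subgroup G) : Option ι → G → List G → Prop
  | nil : Red P none 1 []
  | cons (a : ι) (g : G) (o : Option ι) (c : G) (W : List G) (hg : g ∈ P a) (h1 : g ≠ 1)
      (ho : o ≠ some a) (hr : Red P o c W) : Red P (some a) (g * c) (g :: W)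

theorem exists_red (P : ι → Subgroup G) {c : G} (hc : c ∈ ⨆ q, P q) : ∃ o W, Red P o c W := by
  have key : ∀ x ∈ ⨆ q, P q, ∀ o c W, Red P o c W → ∃ o' W', Red P o' (x * c) W' := by
    intro x hx
    refine Subgroup.iSup_induction P (C := fun x => ∀ o c W, Red P o c W →
      ∃ o' W', Red P o' (x * c) W') hx ?_ ?_ ?_
    · intro q x hx o c W hr
      by_cases hx1 : x = 1
      · exact ⟨o, W, by rw [hx1, one_mul]; exact hr⟩
      · cases hr with
        | nil => exact ⟨_, _, Red.cons q x none 1 [] hx hx1 (by simp) Red.nil⟩
        | cons a g o c W hg h1 ho hr =>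
          by_cases haq : a = q
          · subst haq
            by_cases hxg : x * g = 1
            · exact ⟨o, W, by rw [← mul_assoc, hxg, one_mul]; exact hr⟩
            · exact ⟨_, _, by
                rw [← mul_assoc]
                exact Red.cons a (x * g) o c W ((P a).mul_mem hx hg) hxg ho hr⟩
          · exact ⟨_, _, Red.cons q x (some a) (g * c) (g :: W) hx hx1
              (by simpa using haq) (Red.cons a g o c W hg h1 ho hr)⟩
    · intro o c W hr
      exact ⟨o, W, by rw [one_mul]; exact hr⟩
    · intro x y hx hy o c W hr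
      obtain ⟨o', W', hr'⟩ := hy o c W hr
      obtain ⟨o'', W'', hr''⟩ := hx o' _ W' hr'
      exact ⟨o'', W'', by rw [mul_assoc]; exact hr''⟩
  obtain ⟨o, W, h⟩ := key c hc none 1 [] Red.nil
  exact ⟨o, W, by rwa [mul_one] at h⟩

namespace Heads

variable {L : Subgroup G} {P : ι → Subgroup G}

theorem red_mem (t : Heads L P) {o : Option ι} {c : G} {W : List G} (h : Red P o c W) : c ∈ L := by
  induction h with
  | nil => exact L.one_mem
  | cons a g o c W hg h1 ho hr ih => exact L.mul_mem (t.le a hg) ih

theorem cancel (t : Heads L P) {o : Option ι} {c : G} {W : List G} (h : Red P o c W) :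
    ∀ a, o = some a → ∀ u ∈ L, t.head a (c * u) = 1 → ∀ q, t.head q u = 1 ∨ (t.head q u)⁻¹ ∈ W := by
  induction h with
  | nil => intro a ha; simp at ha
  | cons a g o c W hg h1 ho hr ih =>
    intro a' ha u hu hh q
    obtain rfl : a = a' := by simpa using ha
    have hcu : c * u ∈ L := L.mul_mem (t.red_mem hr) hu
    rw [mul_assoc, t.mul a g hg _ hcu] at hh
    have h2 : t.head a (c * u) = g⁻¹ := (inv_eq_of_mul_eq_one_right hh).symm
    have h3 : t.head a (c * u) ≠ 1 := by
      rw [h2]
      exact inv_ne_one.2 h1
    cases o with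
    | none =>
      have hc : c = 1 := by
        cases hr
        rfl
      subst hc
      rw [one_mul] at h2 h3
      by_cases hq : q = a
      · right
        rw [hq, h2, inv_inv]
        exact List.mem_cons_self
      · left
        exact (t.one q a hq u hu).resolve_right h3
    | some b =>
      have hba : b ≠ a := by
        intro hb
        exact ho (by rw [hb])
      have h4 := (t.one b a hba _ hcu).resolve_right h3
      rcases ih b rfl u hu h4 q with h5 | h5
      · exact Or.inl h5
      · exact Or.inr (List.mem_cons_of_mem _ h5)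

theorem near_red (t : Heads L P) {o : Option ι} {c : G} {W : List G} (h : Red P o c W) :
    ∃ E : Finset G, ∀ u ∈ L, ∀ q q', (q = q' ∧ c ∈ P q) ∨ t.head q u ∈ E ∨
      t.head q' (c * u) ∈ E := by
  classical
  induction h with
  | nil =>
    refine ⟨{1}, fun u hu q q' => ?_⟩
    by_cases hq : q = q'
    · exact Or.inl ⟨hq, (P q).one_mem⟩
    · rw [one_mul, Finset.mem_singleton, Finset.mem_singleton]
      exact Or.inr (t.one q q' hq u hu)
  | cons a g o c W hg h1 ho hr ih =>
    obtain ⟨E, hE⟩ := ih
    refine ⟨insert 1 (E ∪ E.image (fun x => g * x) ∪ (g :: W).toFinset.image fun x => x⁻¹),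
      fun u hu q q' => ?_⟩
    have hcu : c * u ∈ L := L.mul_mem (t.red_mem hr) hu
    by_cases hq' : q' = a
    · rcases hE u hu q q' with ⟨h2, h3⟩ | h2 | h2
      · left
        refine ⟨h2, (P q).mul_mem ?_ h3⟩
        rw [h2, hq']
        exact hg
      · right; left
        exact Finset.mem_insert_of_mem (Finset.mem_union_left _ (Finset.mem_union_left _ h2))
      · right; right
        rw [hq'] at h2 ⊢
        rw [mul_assoc, t.mul a g hg _ hcu]
        exact Finset.mem_insert_of_mem (Finset.mem_union_left _ (Finset.mem_union_right _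
          (Finset.mem_image.2 ⟨_, h2, rfl⟩)))
    · have hgcu : g * c * u ∈ L := by
        rw [mul_assoc]
        exact L.mul_mem (t.le a hg) hcu
      rcases t.one q' a hq' _ hgcu with h2 | h2
      · right; right
        rw [h2]
        exact Finset.mem_insert_self _ _
      · right; left
        rcases t.cancel (Red.cons a g o c W hg h1 ho hr) a rfl u hu h2 q with h3 | h3
        · rw [h3]
          exact Finset.mem_insert_self _ _
        · refine Finset.mem_insert_of_mem (Finset.mem_union_right _ (Finset.mem_image.2
            ⟨_, List.mem_toFinset.2 h3, inv_inv _⟩))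

/-- internal free products have the top property -/
def tops (t : Heads L P) : Tops L P where
  le := t.le
  top := fun q x => x * t.head q x⁻¹
  const := by
    intro q x hx h hh
    rw [mul_inv_rev, t.mul q _ ((P q).inv_mem hh) _ (L.inv_mem hx)]
    group
  mem := by
    intro q x hx
    rw [inv_mul_cancel_left]
    exact t.mem q _ (L.inv_mem hx)
  near := by
    classical
    intro Q hQ
    have h1 : ∀ p : G, ∃ E : Finset G, p ∈ L → ∀ u ∈ L, ∀ q q', (q = q' ∧ p⁻¹ ∈ P q) ∨
        t.head q u ∈ E ∨ t.head q' (p⁻¹ * u) ∈ E := by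
      intro p
      by_cases hp : p ∈ L
      · obtain ⟨o, W, hr⟩ := exists_red P (t.sup (L.inv_mem hp))
        obtain ⟨E, hE⟩ := t.near_red hr
        exact ⟨E, fun _ => hE⟩
      · exact ⟨∅, fun h => absurd h hp⟩
    choose E hE using h1
    refine ⟨Q.biUnion fun p => (E p).image fun x => x⁻¹, fun y hy p hp q q' => ?_⟩
    rcases hE p (hQ p hp) y⁻¹ (L.inv_mem hy) q q' with ⟨h2, h3⟩ | h2 | h2
    · exact Or.inl ⟨h2, by rwa [inv_mem_iff] at h3⟩
    · right; left
      refine Finset.mem_biUnion.2 ⟨p, hp, Finset.mem_image.2 ⟨_, h2, ?_⟩⟩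
      group
    · right; right
      refine Finset.mem_biUnion.2 ⟨p, hp, Finset.mem_image.2 ⟨_, h2, ?_⟩⟩
      rw [mul_inv_rev]
      group

end Heads

open Classical in
/-- first syllables of an internal free product -/
noncomputable def headsOfFree (P : ι → Subgroup G)
    (hinj : Function.Injective (CoprodI.lift fun i => (P i).subtype)) : Heads (⨆ i, P i) P where
  le := fun q => le_iSup P q
  sup := le_rfl
  head := fun q u =>
    if h : ∃ x : CoprodI fun i => P i, CoprodI.lift (fun i => (P i).subtype) x = u then
      ((CoprodI.Word.equivPair q (CoprodI.Word.equiv h.choose)).head : G) else 1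
  mem := by
    intro q u _
    by_cases h : ∃ x : CoprodI fun i => P i, CoprodI.lift (fun i => (P i).subtype) x = u
    · simp only [dif_pos h]
      exact (CoprodI.Word.equivPair q (CoprodI.Word.equiv h.choose)).head.2
    · simp only [dif_neg h]
      exact (P q).one_mem
  mul := by
    intro q h hh u hu
    have hr : (CoprodI.lift fun i => (P i).subtype).range = ⨆ i, P i := by
      rw [CoprodI.range_eq_iSup]
      simp only [Subgroup.range_subtype]
    rw [← hr] at hu
    obtain ⟨x, rfl⟩ := hu
    have h1 : ∃ z : CoprodI fun i => P i, CoprodI.lift (fun i => (P i).subtype) z =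
      CoprodI.lift (fun i => (P i).subtype) x := ⟨x, rfl⟩
    have h2 : ∃ z : CoprodI fun i => P i, CoprodI.lift (fun i => (P i).subtype) z =
      h * CoprodI.lift (fun i => (P i).subtype) x :=
      ⟨CoprodI.of (M := fun i => P i) (i := q) ⟨h, hh⟩ * x, by rw [map_mul, CoprodI.lift_of]; rfl⟩
    rw [dif_pos h1, dif_pos h2]
    have h3 : h1.choose = x := hinj h1.choose_spec
    have h4 : h2.choose = CoprodI.of (M := fun i => P i) (i := q) ⟨h, hh⟩ * x := by
      apply hinj
      rw [h2.choose_spec, map_mul, CoprodI.lift_of]
      rfl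
    rw [h3, h4]
    have h5 : CoprodI.Word.equiv (CoprodI.of (M := fun i => P i) (i := q) ⟨h, hh⟩ * x) =
        CoprodI.of (M := fun i => P i) (i := q) ⟨h, hh⟩ • CoprodI.Word.equiv x :=
      mul_smul (CoprodI.of (M := fun i => P i) (i := q) ⟨h, hh⟩) x
        (CoprodI.Word.empty : CoprodI.Word fun i => P i)
    rw [h5, CoprodI.Word.equivPair_smul_same]
    rfl
  one := by
    intro q q' hq u _
    by_cases h : ∃ x : CoprodI fun i => P i, CoprodI.lift (fun i => (P i).subtype) x = u
    · simp only [dif_pos h]
      by_cases h1 : (CoprodI.Word.equiv h.choose).fstIdx = some q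
      · right
        have h2 : (CoprodI.Word.equiv h.choose).fstIdx ≠ some q' := by
          rw [h1]
          simpa using hq
        rw [CoprodI.Word.equivPair_eq_of_fstIdx_ne h2]
        rfl
      · left
        rw [CoprodI.Word.equivPair_eq_of_fstIdx_ne h1]
        rfl
    · left
      simp only [dif_neg h]

/-- **an internal free product has the top property** -/
theorem tops_of_free (P : ι → Subgroup G)
    (hinj : Function.Injective (CoprodI.lift fun i => (P i).subtype)) :
    Nonempty (Tops (⨆ i, P i) P) := ⟨(headsOfFree P hinj).tops⟩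

end Pool.Agent.Helper65.RT3
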