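import Pool.Agent.Helper74.RT.Defs

/-!
# RT3: the top property

`Tops L P`: every coset `x P_q` with `x ∈ L` has a top point `top q x`, and two different cosets which come close
(in the points `y` and `y * p`, `p` in a finite set) do so near the top point of one of them. Consequences: the
intersections `P_q ∩ l P_q' l⁻¹` are finite (unless `q = q'`, `l ∈ P_q`), and the number of pairs of close cosets in
a finite set of cosets is at most linear in the number of cosets.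
-/

set_option autoImplicit false

namespace Pool.Agent.Helper65.RT3

variable {G : Type*} [Group G] {ι : Type*}

/-- top points for the cosets of the subgroups `P q` in `L` -/
structure Tops (L : Subgroup G) (P : ι → Subgroup G) where
  le : ∀ q, P q ≤ L
  top : ι → G → G
  const : ∀ q, ∀ x ∈ L, ∀ h ∈ P q, top q (x * h) = top q x
  mem : ∀ q, ∀ x ∈ L, x⁻¹ * top q x ∈ P q
  near : ∀ Q : Finset G, (∀ p ∈ Q, p ∈ L) → ∃ E : Finset G, ∀ y ∈ L, ∀ p ∈ Q, ∀ q q',
    (q = q' ∧ p ∈ P q) ∨ (top q y)⁻¹ * y ∈ E ∨ (top q' (y * p))⁻¹ * (y * p) ∈ E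

namespace Tops

variable {L : Subgroup G} {P : ι → Subgroup G}

theorem top_mem (t : Tops L P) (q : ι) {x : G} (hx : x ∈ L) : t.top q x ∈ L := by
  have h := L.mul_mem hx (t.le q (t.mem q x hx))
  rwa [mul_inv_cancel_left] at h

theorem top_congr (t : Tops L P) (q : ι) {x y : G} (hx : x ∈ L) (h : x⁻¹ * y ∈ P q) :
    t.top q y = t.top q x := by
  have h1 := t.const q x hx _ h
  rwa [mul_inv_cancel_left] at h1

/-- the subgroups `P q` are almost malnormal in `L` -/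
theorem mal (t : Tops L P) (q q' : ι) {l : G} (hl : l ∈ L) (hne : ¬ (q = q' ∧ l ∈ P q)) :
    {h | h ∈ P q ∧ l⁻¹ * h * l ∈ P q'}.Finite := by
  classical
  obtain ⟨E, hE⟩ := t.near {l} (by
    intro p hp
    rw [Finset.mem_singleton] at hp
    rwa [hp])
  refine ((E.image fun e => t.top q 1 * e) ∪ (E.image fun e => t.top q' l * e * l⁻¹)).finite_toSet.subset ?_
  rintro h ⟨h1, h2⟩
  have hhL : h ∈ L := t.le q h1
  rcases hE h hhL l (Finset.mem_singleton_self l) q q' with h3 | h3 | h3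
  · exact absurd h3 hne
  · rw [Finset.mem_coe]
    refine Finset.mem_union_left _ (Finset.mem_image.2 ⟨_, h3, ?_⟩)
    have h4 : t.top q h = t.top q 1 := by
      have h5 := t.const q 1 L.one_mem h h1
      rwa [one_mul] at h5
    rw [h4, mul_inv_cancel_left]
  · rw [Finset.mem_coe]
    refine Finset.mem_union_right _ (Finset.mem_image.2 ⟨_, h3, ?_⟩)
    have h4 : t.top q' (h * l) = t.top q' l := by
      apply t.top_congr q' hl
      rwa [← mul_assoc]
    rw [h4, mul_inv_cancel_left, mul_inv_cancel_right]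

theorem out_mem (L : Subgroup G) (x : G) : (x : G ⧸ L).out⁻¹ * x ∈ L :=
  QuotientGroup.eq.1 (QuotientGroup.out_eq' _)

/-- top points for all cosets in `G`: translate by a representative of `x L` -/
noncomputable def topG (t : Tops L P) (q : ι) (x : G) : G :=
  (x : G ⧸ L).out * t.top q ((x : G ⧸ L).out⁻¹ * x)

theorem mk_mul_mem (L : Subgroup G) (x : G) {h : G} (hh : h ∈ L) :
    ((x * h : G) : G ⧸ L) = (x : G ⧸ L) := (QuotientGroup.eq.2 (by rwa [inv_mul_cancel_left])).symm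

theorem topG_congr (t : Tops L P) (q : ι) {x y : G} (h : x⁻¹ * y ∈ P q) : t.topG q y = t.topG q x := by
  have h0 : (y : G ⧸ L) = (x : G ⧸ L) := (QuotientGroup.eq.2 (t.le q h)).symm
  unfold topG
  rw [h0]
  congr 1
  apply t.top_congr q (out_mem L x)
  have h1 : ((x : G ⧸ L).out⁻¹ * x)⁻¹ * ((x : G ⧸ L).out⁻¹ * y) = x⁻¹ * y := by group
  rwa [h1]

theorem nearG (t : Tops L P) (Q : Finset G) (hQ : ∀ p ∈ Q, p ∈ L) : ∃ E : Finset G,
    ∀ y, ∀ p ∈ Q, ∀ q q',
    (q = q' ∧ p ∈ P q) ∨ (t.topG q y)⁻¹ * y ∈ E ∨ (t.topG q' (y * p))⁻¹ * (y * p) ∈ E := by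
  obtain ⟨E, hE⟩ := t.near Q hQ
  refine ⟨E, fun y p hp q q' => ?_⟩
  have h := hE _ (out_mem L y) p hp q q'
  unfold topG
  rw [mk_mul_mem L y (hQ p hp)]
  have h1 : ((y : G ⧸ L).out * t.top q ((y : G ⧸ L).out⁻¹ * y))⁻¹ * y =
      (t.top q ((y : G ⧸ L).out⁻¹ * y))⁻¹ * ((y : G ⧸ L).out⁻¹ * y) := by group
  have h2 : ((y : G ⧸ L).out * t.top q' ((y : G ⧸ L).out⁻¹ * (y * p)))⁻¹ * (y * p) =
      (t.top q' ((y : G ⧸ L).out⁻¹ * y * p))⁻¹ * ((y : G ⧸ L).out⁻¹ * y * p) := by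
    rw [mul_assoc (y : G ⧸ L).out⁻¹ y p]
    group
  rw [h1, h2]
  exact h

/-- a linear number of contacts: cosets are given as pairs of an index and a coset -/
theorem conG [Fintype ι] (t : Tops L P) (Q : Finset G) (hQ : ∀ p ∈ Q, p ∈ L) : ∃ w : ℕ,
    ∀ (Z : Finset (Σ q, G ⧸ P q)) (R : Finset ((Σ q, G ⧸ P q) × (Σ q, G ⧸ P q))),
      (∀ r ∈ R, r.1 ∈ Z ∧ r.2 ∈ Z ∧ r.1 ≠ r.2 ∧ ∃ y : G, ∃ p ∈ Q,
        (y : G ⧸ P r.1.1) = r.1.2 ∧ ((y * p : G) : G ⧸ P r.2.1) = r.2.2) →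
      R.card ≤ w * Z.card := by
  classical
  obtain ⟨E, hE⟩ := t.nearG Q hQ
  -- the top point of a coset
  let tp : (Σ q, G ⧸ P q) → G := fun π => t.topG π.1 π.2.out
  have htp : ∀ (q : ι) (y : G), tp ⟨q, (y : G ⧸ P q)⟩ = t.topG q y := by
    intro q y
    exact (t.topG_congr q (out_mem (P q) y)).symm
  let N : (Σ q, G ⧸ P q) → Finset (Σ q, G ⧸ P q) := fun π =>
    (Finset.univ ×ˢ (E ×ˢ Q)).image fun a => ⟨a.1, ((tp π * a.2.1 * a.2.2 : G) : G ⧸ P a.1)⟩
  let N' : (Σ q, G ⧸ P q) → Finset (Σ q, G ⧸ P q) := fun π =>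
    (Finset.univ ×ˢ (E ×ˢ Q)).image fun a => ⟨a.1, ((tp π * a.2.1 * a.2.2⁻¹ : G) : G ⧸ P a.1)⟩
  have hN : ∀ π, (N π).card ≤ Fintype.card ι * (E.card * Q.card) := by
    intro π
    refine Finset.card_image_le.trans (le_of_eq ?_)
    rw [Finset.card_product, Finset.card_product, Finset.card_univ]
  have hN' : ∀ π, (N' π).card ≤ Fintype.card ι * (E.card * Q.card) := by
    intro π
    refine Finset.card_image_le.trans (le_of_eq ?_)
    rw [Finset.card_product, Finset.card_product, Finset.card_univ]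
  refine ⟨2 * (Fintype.card ι * (E.card * Q.card)), fun Z R hR => ?_⟩
  have hsub : R ⊆ (Z.biUnion fun π => (N π).image fun π' => (π, π')) ∪
      (Z.biUnion fun π' => (N' π').image fun π => (π, π')) := by
    rintro ⟨⟨q, c⟩, ⟨q', c'⟩⟩ hr
    obtain ⟨h1, h2, h3, y, p, hp, h4, h5⟩ := hR _ hr
    simp only at h4 h5
    subst h4
    subst h5
    rcases hE y p hp q q' with ⟨h6, h7⟩ | h6 | h6
    · subst h6
      refine absurd ?_ h3
      refine Sigma.ext rfl (heq_of_eq ?_)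
      exact QuotientGroup.eq.2 (by rwa [inv_mul_cancel_left])
    · refine Finset.mem_union_left _ (Finset.mem_biUnion.2 ⟨_, h1, Finset.mem_image.2
        ⟨_, Finset.mem_image.2 ⟨(q', (t.topG q y)⁻¹ * y, p), ?_, rfl⟩, ?_⟩⟩)
      · exact Finset.mem_product.2 ⟨Finset.mem_univ _, Finset.mem_product.2 ⟨h6, hp⟩⟩
      · simp only
        rw [htp q y, mul_inv_cancel_left]
    · refine Finset.mem_union_right _ (Finset.mem_biUnion.2 ⟨_, h2, Finset.mem_image.2
        ⟨_, Finset.mem_image.2 ⟨(q, (t.topG q' (y * p))⁻¹ * (y * p), p), ?_, rfl⟩, ?_⟩⟩)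
      · exact Finset.mem_product.2 ⟨Finset.mem_univ _, Finset.mem_product.2 ⟨h6, hp⟩⟩
      · simp only
        rw [htp q' (y * p), mul_inv_cancel_left, mul_inv_cancel_right]
  refine (Finset.card_le_card hsub).trans ((Finset.card_union_le _ _).trans ?_)
  have h1 : (Z.biUnion fun π => (N π).image fun π' => (π, π')).card ≤
      Z.card * (Fintype.card ι * (E.card * Q.card)) :=
    Finset.card_biUnion_le_card_mul _ _ _ fun π _ => Finset.card_image_le.trans (hN π)
  have h2 : (Z.biUnion fun π' => (N' π').image fun π => (π, π')).card ≤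
      Z.card * (Fintype.card ι * (E.card * Q.card)) :=
    Finset.card_biUnion_le_card_mul _ _ _ fun π _ => Finset.card_image_le.trans (hN' π)
  calc _ ≤ Z.card * (Fintype.card ι * (E.card * Q.card)) +
        Z.card * (Fintype.card ι * (E.card * Q.card)) := Nat.add_le_add h1 h2
    _ = 2 * (Fintype.card ι * (E.card * Q.card)) * Z.card := by ring

open Classical in
/-- the field `con` of `Peri` -/
theorem con {s : ℕ} {P : Fin s → Subgroup G} (t : Tops L P) (D : Finset G) (hD : ∀ d ∈ D, d ∈ L) :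
    ∃ ω : ℕ, ∀ Q : Finset ((q : Fin s) × (G ⧸ P q)),
      ((Q ×ˢ Q).filter fun z => z.1 ≠ z.2 ∧
        (Helper74.RT.nb P D z.1 ∩ Helper74.RT.nb P D z.2).Nonempty).card ≤ ω * Q.card := by
  obtain ⟨ω, hω⟩ := t.conG ((D ×ˢ D).image fun d => d.1⁻¹ * d.2) (by
    intro p hp
    obtain ⟨d, hd, rfl⟩ := Finset.mem_image.1 hp
    rw [Finset.mem_product] at hd
    exact L.mul_mem (L.inv_mem (hD _ hd.1)) (hD _ hd.2))
  refine ⟨ω, fun Q => hω Q _ fun r hr => ?_⟩
  rw [Finset.mem_filter, Finset.mem_product] at hr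
  obtain ⟨⟨h1, h2⟩, h3, x, ⟨d, hd, hxd⟩, ⟨d', hd', hxd'⟩⟩ := hr
  refine ⟨h1, h2, h3, x * d, d⁻¹ * d', Finset.mem_image.2
    ⟨(d, d'), Finset.mem_product.2 ⟨hd, hd'⟩, rfl⟩, hxd, ?_⟩
  rw [← mul_assoc, mul_inv_cancel_right]
  exact hxd'

/-- the field `mal` of `Peri` -/
theorem mal' (t : Tops L P) : ∀ q q', ∀ l ∈ L, {x | x ∈ P q ∧ l⁻¹ * x * l ∈ P q'}.Infinite →
    q = q' ∧ l ∈ P q := by
  intro q q' l hl hinf
  by_contra hne
  exact hinf (t.mal q q' hl hne)

end Tops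

end Pool.Agent.Helper65.RT3
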